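import Mathlib

namespace Pool.Agent.Results.MP_88303f_co.AllPairs

open Finset

attribute [local instance] Classical.propDecidable

/-- `S` contains no edge of `G`. -/
def Indep {V : Type*} (G : SimpleGraph V) (S : Finset V) : Prop :=
  ∀ x ∈ S, ∀ y ∈ S, ¬ G.Adj x y

/-- `S` is a maximal independent set of `G`. -/
def IsMIS {V : Type*} (G : SimpleGraph V) (S : Finset V) : Prop :=
  Indep G S ∧ ∀ T : Finset V, S ⊂ T → ¬ Indep G T

/-- The number of maximal independent sets of `G`. -/
noncomputable def misCount {V : Type*} (G : SimpleGraph V) : ℕ :=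
  Nat.card {S : Finset V // IsMIS G S}

/-- `mu v e`: the largest number of maximal independent sets of a graph with `v` vertices and
`e` edges. -/
noncomputable def mu (v e : ℕ) : ℕ :=
  sSup {k | ∃ G : SimpleGraph (Fin v), Nat.card G.edgeSet = e ∧ misCount G = k}

section rec

variable {V : Type*} (G : SimpleGraph V)

/-- maximal independent sets of the subgraph induced on `A` -/
noncomputable def MI (A : Finset V) : Finset (Finset V) :=
  A.powerset.filter (fun S => Indep G S ∧ ∀ x ∈ A, x ∉ S → ∃ y ∈ S, G.Adj x y)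

/-- degree inside `A` -/
noncomputable def dg (A : Finset V) (x : V) : ℕ := (A.filter (fun y => G.Adj x y)).card

/-- closed neighbourhood in `A` -/
noncomputable def nb (A : Finset V) (x : V) : Finset V :=
  A.filter (fun y => y = x ∨ G.Adj x y)

/-- the vertices of `A` outside the closed neighbourhood of `x` -/
noncomputable def away (A : Finset V) (x : V) : Finset V :=
  A.filter (fun y => ¬ (y = x ∨ G.Adj x y))

/-- twice the number of edges inside `A` -/
noncomputable def e2 (A : Finset V) : ℕ := ∑ x ∈ A, dg G A x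

lemma mem_MI {A S : Finset V} : S ∈ MI G A ↔
    S ⊆ A ∧ Indep G S ∧ ∀ x ∈ A, x ∉ S → ∃ y ∈ S, G.Adj x y := by
  simp [MI, Finset.mem_filter, Finset.mem_powerset]

lemma MI_erase_mem {A S : Finset V} (hS : S ∈ MI G A) {y : V} (hy : y ∈ S) :
    S.erase y ∈ MI G (away G A y) := by
  rw [mem_MI] at hS ⊢
  obtain ⟨h1, h2, h3⟩ := hS
  refine ⟨?_, ?_, ?_⟩
  · intro z hz
    have hz' := Finset.mem_erase.1 hz
    simp only [away, Finset.mem_filter]
    refine ⟨h1 hz'.2, ?_⟩
    rintro (h | h)
    · exact hz'.1 h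
    · exact h2 y hy z hz'.2 h
  · intro a ha b hb
    exact h2 a (Finset.mem_of_mem_erase ha) b (Finset.mem_of_mem_erase hb)
  · intro z hz hzS
    simp only [away, Finset.mem_filter, not_or] at hz
    have hzS' : z ∉ S := fun h => hzS (Finset.mem_erase.2 ⟨hz.2.1, h⟩)
    obtain ⟨w, hw, hzw⟩ := h3 z hz.1 hzS'
    refine ⟨w, Finset.mem_erase.2 ⟨?_, hw⟩, hzw⟩
    rintro rfl
    exact hz.2.2 hzw.symm

lemma rec1 {A : Finset V} {x : V} (hx : x ∈ A) :
    (MI G A).card ≤ ∑ y ∈ nb G A x, (MI G (away G A y)).card := by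
  have hsub : MI G A ⊆ (nb G A x).biUnion
      (fun y => (MI G (away G A y)).image (fun T => insert y T)) := by
    intro S hS
    have hS' := (mem_MI G).1 hS
    simp only [Finset.mem_biUnion, Finset.mem_image]
    by_cases hxS : x ∈ S
    · exact ⟨x, by simp [nb, hx], S.erase x, MI_erase_mem G hS hxS, Finset.insert_erase hxS⟩
    · obtain ⟨y, hy, hxy⟩ := hS'.2.2 x hx hxS
      exact ⟨y, by simp [nb, hS'.1 hy, hxy], S.erase y, MI_erase_mem G hS hy,
        Finset.insert_erase hy⟩
  calc (MI G A).card ≤ _ := Finset.card_le_card hsub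
    _ ≤ ∑ y ∈ nb G A x, ((MI G (away G A y)).image (fun T => insert y T)).card :=
        Finset.card_biUnion_le
    _ ≤ _ := Finset.sum_le_sum (fun y _ => Finset.card_image_le)

lemma rec2 {A : Finset V} {x : V} (_hx : x ∈ A) :
    (MI G A).card ≤ (MI G (A.erase x)).card + (MI G (away G A x)).card := by
  have hsub : MI G A ⊆ MI G (A.erase x) ∪
      (MI G (away G A x)).image (fun T => insert x T) := by
    intro S hS
    have hS' := (mem_MI G).1 hS
    rw [Finset.mem_union]
    by_cases hxS : x ∈ S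
    · right
      exact Finset.mem_image.2 ⟨S.erase x, MI_erase_mem G hS hxS, Finset.insert_erase hxS⟩
    · left
      rw [mem_MI]
      refine ⟨?_, hS'.2.1, ?_⟩
      · intro z hz
        refine Finset.mem_erase.2 ⟨?_, hS'.1 hz⟩
        rintro rfl
        exact hxS hz
      · intro z hz hzS
        exact hS'.2.2 z (Finset.mem_of_mem_erase hz) hzS
  calc (MI G A).card ≤ _ := Finset.card_le_card hsub
    _ ≤ _ := Finset.card_union_le _ _
    _ ≤ _ := Nat.add_le_add_left Finset.card_image_le _

lemma card_nb {A : Finset V} {x : V} (hx : x ∈ A) : (nb G A x).card = dg G A x + 1 := by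
  have : nb G A x = insert x (A.filter (fun y => G.Adj x y)) := by
    ext y
    simp only [nb, Finset.mem_filter, Finset.mem_insert]
    constructor
    · rintro ⟨h1, h2 | h2⟩
      · exact Or.inl h2
      · exact Or.inr ⟨h1, h2⟩
    · rintro (h | h)
      · subst h; exact ⟨hx, Or.inl rfl⟩
      · exact ⟨h.1, Or.inr h.2⟩
  rw [this, Finset.card_insert_of_notMem, dg]
  simp

lemma nb_subset (A : Finset V) (x : V) : nb G A x ⊆ A := Finset.filter_subset _ _

lemma away_subset_erase (A : Finset V) (x : V) : away G A x ⊆ A.erase x := by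
  intro y hy
  simp only [away, Finset.mem_filter, not_or] at hy
  exact Finset.mem_erase.2 ⟨hy.2.1, hy.1⟩

lemma card_away_add (A : Finset V) (x : V) :
    (nb G A x).card + (away G A x).card = A.card := by
  rw [nb, away]
  exact Finset.card_filter_add_card_filter_not _

lemma card_away {A : Finset V} {x : V} (hx : x ∈ A) :
    (away G A x).card + (dg G A x + 1) = A.card := by
  have h1 := card_away_add G A x
  have h2 := card_nb G hx
  omega

lemma dg_mono {A B : Finset V} (h : B ⊆ A) (x : V) : dg G B x ≤ dg G A x :=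
  Finset.card_le_card (Finset.filter_subset_filter _ h)

lemma e2_mono {A B : Finset V} (h : B ⊆ A) : e2 G B ≤ e2 G A := by
  calc e2 G B ≤ ∑ x ∈ B, dg G A x := Finset.sum_le_sum (fun x _ => dg_mono G h x)
    _ ≤ e2 G A := Finset.sum_le_sum_of_subset h

lemma e2_erase {A : Finset V} {x : V} (hx : x ∈ A) :
    e2 G (A.erase x) + 2 * dg G A x = e2 G A := by
  have h1 : e2 G A = dg G A x + ∑ y ∈ A.erase x, dg G A y := by
    rw [e2, ← Finset.add_sum_erase _ _ hx]
  have h2 : ∀ y ∈ A.erase x, dg G A y = dg G (A.erase x) y + if G.Adj x y then 1 else 0 := by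
    intro y hy
    have hy' := Finset.mem_erase.1 hy
    rw [dg, dg]
    split_ifs with h
    · have : A.filter (fun z => G.Adj y z) = insert x ((A.erase x).filter (fun z => G.Adj y z)) := by
        ext z
        simp only [Finset.mem_filter, Finset.mem_insert, Finset.mem_erase]
        constructor
        · rintro ⟨h1, h2⟩
          by_cases hz : z = x
          · exact Or.inl hz
          · exact Or.inr ⟨⟨hz, h1⟩, h2⟩
        · rintro (h1 | h1)
          · subst h1; exact ⟨hx, h.symm⟩
          · exact ⟨h1.1.2, h1.2⟩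
      rw [this, Finset.card_insert_of_notMem]
      simp
    · congr 1
      ext z
      simp only [Finset.mem_filter, Finset.mem_erase]
      constructor
      · rintro ⟨h1, h2⟩
        refine ⟨⟨?_, h1⟩, h2⟩
        rintro rfl
        exact h h2.symm
      · rintro ⟨h1, h2⟩
        exact ⟨h1.2, h2⟩
  have h3 : ∑ y ∈ A.erase x, (if G.Adj x y then 1 else 0) = dg G A x := by
    rw [← Finset.card_filter, dg]
    congr 1
    ext z
    simp only [Finset.mem_filter, Finset.mem_erase]
    constructor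
    · rintro ⟨h1, h2⟩
      exact ⟨h1.2, h2⟩
    · rintro ⟨h1, h2⟩
      exact ⟨⟨fun h => by subst h; exact G.loopless.irrefl _ h2, h1⟩, h2⟩
  rw [h1, Finset.sum_congr rfl h2, Finset.sum_add_distrib, h3, e2]
  omega

lemma e2_away_le {A : Finset V} {y : V} (hy : y ∈ A) :
    e2 G (away G A y) + 2 * dg G A y ≤ e2 G A := by
  have h1 := e2_erase G hy
  have h2 := e2_mono G (away_subset_erase G A y)
  omega

lemma e2_away_le' {A : Finset V} {y : V} {k : ℕ} (hk : ∀ z ∈ A, k ≤ dg G A z) :
    e2 G (away G A y) + k * (nb G A y).card ≤ e2 G A := by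
  have h1 : e2 G A = ∑ z ∈ nb G A y, dg G A z + ∑ z ∈ away G A y, dg G A z := by
    rw [e2, nb, away]
    exact (Finset.sum_filter_add_sum_filter_not _ _ _).symm
  have h2 : e2 G (away G A y) ≤ ∑ z ∈ away G A y, dg G A z :=
    Finset.sum_le_sum (fun z _ => dg_mono G (Finset.filter_subset _ _) z)
  have h3 : k * (nb G A y).card ≤ ∑ z ∈ nb G A y, dg G A z := by
    calc k * (nb G A y).card = ∑ z ∈ nb G A y, k := by simp [mul_comm]
      _ ≤ _ := Finset.sum_le_sum (fun z hz => hk z (nb_subset G A y hz))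
  omega

lemma MI_empty : (MI G ∅).card = 1 := by
  have : MI G ∅ = {∅} := by
    ext S
    rw [mem_MI]
    simp only [Finset.subset_empty, Finset.mem_singleton]
    constructor
    · exact fun h => h.1
    · rintro rfl
      exact ⟨rfl, by simp [Indep], by simp⟩
  rw [this]; simp

lemma exists_min_dg {A : Finset V} (hA : A.Nonempty) :
    ∃ x ∈ A, ∀ z ∈ A, dg G A x ≤ dg G A z :=
  Finset.exists_min_image A (dg G A) hA

end rec

/-! ### the cube root of three -/

/-- the cube root of three -/
noncomputable def t3 : ℝ := (3 : ℝ) ^ ((1 : ℝ) / 3)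

lemma t3_pos : 0 < t3 := Real.rpow_pos_of_pos (by norm_num) _

lemma t3_cube : t3 ^ 3 = 3 := by
  rw [t3, ← Real.rpow_natCast, ← Real.rpow_mul (by norm_num)]
  norm_num

lemma t3_lb : (1.44 : ℝ) ≤ t3 := by
  by_contra h
  push Not at h
  have h1 : t3 ^ 3 < (1.44 : ℝ) ^ 3 := pow_lt_pow_left₀ h t3_pos.le (by norm_num)
  rw [t3_cube] at h1
  norm_num at h1

lemma t3_ub : t3 ≤ (1.4423 : ℝ) := by
  by_contra h
  push Not at h
  have h1 : (1.4423 : ℝ) ^ 3 < t3 ^ 3 := pow_lt_pow_left₀ h (by norm_num) (by norm_num)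
  rw [t3_cube] at h1
  norm_num at h1

lemma t3_one : 1 ≤ t3 := le_trans (by norm_num) t3_lb

lemma nat_cube_le (k : ℕ) : k ^ 3 ≤ 3 ^ k := by
  rcases Nat.lt_or_ge k 3 with h | h
  · interval_cases k <;> norm_num
  · induction k, h using Nat.le_induction with
    | base => norm_num
    | succ n hn ih =>
      have h1 : (n + 1) ^ 3 ≤ 3 * n ^ 3 := by nlinarith [mul_le_mul hn hn (by norm_num) (by omega : 0 ≤ n), mul_le_mul (mul_le_mul hn hn (by norm_num) (by omega : 0 ≤ n)) hn (by norm_num) (by positivity)]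
      calc (n + 1) ^ 3 ≤ 3 * n ^ 3 := h1
        _ ≤ 3 * 3 ^ n := Nat.mul_le_mul_left _ ih
        _ = 3 ^ (n + 1) := by ring

lemma nat_le_t3_pow (k : ℕ) : (k : ℝ) ≤ t3 ^ k := by
  have h1 : ((k : ℝ)) ^ 3 ≤ (t3 ^ k) ^ 3 := by
    rw [← pow_mul, mul_comm, pow_mul, t3_cube]
    exact_mod_cast nat_cube_le k
  exact le_of_pow_le_pow_left₀ (by norm_num) (pow_nonneg t3_pos.le _) h1

/-! ### upper bounds -/

section upper

variable {V : Type*} (G : SimpleGraph V)

/-- the theorem of Miller, Muller, Moon and Moser -/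
lemma moon_moser (A : Finset V) : ((MI G A).card : ℝ) ≤ t3 ^ A.card := by
  induction A using Finset.strongInduction with
  | H A ih =>
    rcases A.eq_empty_or_nonempty with rfl | hA
    · rw [MI_empty]; simp
    · obtain ⟨x, hx, hmin⟩ := exists_min_dg G hA
      set d := dg G A x with hd
      have h1 : ((MI G A).card : ℝ) ≤ ∑ y ∈ nb G A x, ((MI G (away G A y)).card : ℝ) := by
        exact_mod_cast rec1 G hx
      have hcardA := card_away G hx
      have h2 : ∀ y ∈ nb G A x, ((MI G (away G A y)).card : ℝ) ≤ t3 ^ (A.card - (d + 1)) := by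
        intro y hy
        have hyA := nb_subset G A x hy
        have hlt : away G A y ⊂ A :=
          lt_of_le_of_lt (away_subset_erase G A y) (Finset.erase_ssubset hyA)
        refine (ih _ hlt).trans (pow_le_pow_right₀ t3_one ?_)
        have h3 := card_away G hyA
        have h4 := hmin y hyA
        omega
      calc ((MI G A).card : ℝ) ≤ ∑ y ∈ nb G A x, t3 ^ (A.card - (d + 1)) :=
            h1.trans (Finset.sum_le_sum h2)
        _ = ((d + 1 : ℕ) : ℝ) * t3 ^ (A.card - (d + 1)) := by
            rw [Finset.sum_const, card_nb G hx, nsmul_eq_mul]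
        _ ≤ t3 ^ (d + 1) * t3 ^ (A.card - (d + 1)) :=
            mul_le_mul_of_nonneg_right (nat_le_t3_pow _) (pow_nonneg t3_pos.le _)
        _ = t3 ^ A.card := by
            rw [← pow_add]; congr 1; omega

/-- at most `2 ^ e` -/
lemma le_two_pow (A : Finset V) : ∀ e : ℕ, e2 G A ≤ 2 * e → (MI G A).card ≤ 2 ^ e := by
  induction A using Finset.strongInduction with
  | H A ih =>
    intro e he
    rcases A.eq_empty_or_nonempty with rfl | hA
    · rw [MI_empty]; exact Nat.one_le_two_pow
    · obtain ⟨x, hx⟩ := hA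
      have hlt : away G A x ⊂ A :=
        lt_of_le_of_lt (away_subset_erase G A x) (Finset.erase_ssubset hx)
      have h3 := e2_away_le G hx
      rcases Nat.eq_zero_or_pos (dg G A x) with h0 | h0
      · have h1 := rec1 G hx
        have h2 : nb G A x = {x} := by
          have hc := card_nb G hx
          rw [h0] at hc
          obtain ⟨a, ha⟩ := Finset.card_eq_one.1 hc
          have hxm : x ∈ nb G A x := by simp [nb, hx]
          rw [ha] at hxm ⊢
          rw [Finset.mem_singleton.1 hxm]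
        rw [h2, Finset.sum_singleton] at h1
        exact h1.trans (ih _ hlt e (by omega))
      · have h1 := rec2 G hx
        have h4 := e2_erase G hx
        have h5 := ih _ (Finset.erase_ssubset hx) (e - dg G A x) (by omega)
        have h6 := ih _ hlt (e - dg G A x) (by omega)
        have h7 : 2 ^ (e - dg G A x) + 2 ^ (e - dg G A x) ≤ 2 ^ e := by
          have : 2 ^ (e - dg G A x) + 2 ^ (e - dg G A x) = 2 ^ (e - dg G A x + 1) := by ring
          rw [this]
          exact Nat.pow_le_pow_right (by norm_num) (by omega)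
        omega

/-- weights for the sparse range -/
noncomputable def wa : ℝ := 2 / t3
/-- weights for the sparse range -/
noncomputable def wb : ℝ := t3 ^ 2 / 2

lemma wa_one : 1 ≤ wa := by
  rw [wa, le_div_iff₀ t3_pos]
  linarith [t3_ub]

lemma wb_one : 1 ≤ wb := by
  rw [wb]
  have := t3_lb
  nlinarith

lemma wa_mul_wb : wa * wb = t3 := by
  rw [wa, wb]
  have := t3_pos
  field_simp

lemma wa2_mul_wb : wa ^ 2 * wb = 2 := by
  rw [wa, wb]
  have := t3_pos
  field_simp

/-- general bound in terms of vertices and edges -/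
lemma le_sparse (A : Finset V) : ∀ e : ℕ, e2 G A ≤ 2 * e →
    ((MI G A).card : ℝ) ≤ wa ^ A.card * wb ^ e := by
  have wa0 : 0 < wa := lt_of_lt_of_le one_pos wa_one
  have wb0 : 0 < wb := lt_of_lt_of_le one_pos wb_one
  induction A using Finset.strongInduction with
  | H A ih =>
    intro e he
    rcases A.eq_empty_or_nonempty with rfl | hA
    · rw [MI_empty]
      simp only [Finset.card_empty, pow_zero, one_mul, Nat.cast_one]
      exact one_le_pow₀ wb_one
    · obtain ⟨x, hx, hmin⟩ := exists_min_dg G hA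
      have hcx := card_away G hx
      have hlt : ∀ y ∈ A, away G A y ⊂ A := fun y hy =>
        lt_of_le_of_lt (away_subset_erase G A y) (Finset.erase_ssubset hy)
      have h1 : ((MI G A).card : ℝ) ≤ ∑ y ∈ nb G A x, ((MI G (away G A y)).card : ℝ) := by
        exact_mod_cast rec1 G hx
      rcases Nat.lt_or_ge (dg G A x) 2 with hd | hd
      · rcases Nat.lt_or_ge (dg G A x) 1 with hd0 | hd1
        · -- isolated vertex
          have h2 : nb G A x = {x} := by
            have hc := card_nb G hx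
            have h0 : dg G A x = 0 := by omega
            rw [h0] at hc
            obtain ⟨a, ha⟩ := Finset.card_eq_one.1 hc
            have hxm : x ∈ nb G A x := by simp [nb, hx]
            rw [ha] at hxm ⊢
            rw [Finset.mem_singleton.1 hxm]
          rw [h2, Finset.sum_singleton] at h1
          have h3 := e2_away_le G hx
          refine h1.trans ((ih _ (hlt x hx) e (by omega)).trans ?_)
          refine mul_le_mul_of_nonneg_right (pow_le_pow_right₀ wa_one ?_) (pow_nonneg wb0.le _)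
          omega
        · -- degree one
          have hd1' : dg G A x = 1 := by omega
          have hb : ∀ y ∈ nb G A x, ((MI G (away G A y)).card : ℝ) ≤
              wa ^ (A.card - 2) * wb ^ (e - 1) := by
            intro y hy
            have hyA := nb_subset G A x hy
            have h3 := e2_away_le G hyA
            have h4 := card_away G hyA
            have h5 := hmin y hyA
            refine (ih _ (hlt y hyA) (e - 1) (by omega)).trans ?_
            refine mul_le_mul_of_nonneg_right (pow_le_pow_right₀ wa_one ?_) (pow_nonneg wb0.le _)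
            omega
          have h6 := e2_away_le G hx
          have hA2 : A.card = (A.card - 2) + 2 := by omega
          have he1 : e = (e - 1) + 1 := by omega
          calc ((MI G A).card : ℝ) ≤ ∑ y ∈ nb G A x, wa ^ (A.card - 2) * wb ^ (e - 1) :=
                h1.trans (Finset.sum_le_sum hb)
            _ = 2 * (wa ^ (A.card - 2) * wb ^ (e - 1)) := by
                rw [Finset.sum_const, card_nb G hx, nsmul_eq_mul, hd1']
                norm_num
            _ = (wa ^ 2 * wb) * (wa ^ (A.card - 2) * wb ^ (e - 1)) := by rw [wa2_mul_wb]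
            _ = wa ^ ((A.card - 2) + 2) * wb ^ ((e - 1) + 1) := by
                rw [pow_add, pow_add]; ring
            _ = wa ^ A.card * wb ^ e := by rw [← hA2, ← he1]
      · -- degree at least two
        set d := dg G A x with hdd
        have hb : ∀ y ∈ nb G A x, ((MI G (away G A y)).card : ℝ) ≤
            wa ^ (A.card - (d + 1)) * wb ^ (e - (d + 1)) := by
          intro y hy
          have hyA := nb_subset G A x hy
          have h3 := e2_away_le' (y := y) G (k := 2) (fun z hz => hd.trans (hmin z hz))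
          have h4 := card_away G hyA
          have h5 := hmin y hyA
          have h6 := card_nb G hyA
          refine (ih _ (hlt y hyA) (e - (dg G A y + 1)) (by omega)).trans ?_
          refine mul_le_mul (pow_le_pow_right₀ wa_one (by omega))
            (pow_le_pow_right₀ wb_one (by omega)) (pow_nonneg wb0.le _) (pow_nonneg wa0.le _)
        have h3 := e2_away_le' (y := x) G (k := 2) (fun z hz => hd.trans (hmin z hz))
        have h6 := card_nb G hx
        have hA2 : A.card = (A.card - (d + 1)) + (d + 1) := by omega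
        have he1 : e = (e - (d + 1)) + (d + 1) := by omega
        calc ((MI G A).card : ℝ) ≤
              ∑ y ∈ nb G A x, wa ^ (A.card - (d + 1)) * wb ^ (e - (d + 1)) :=
              h1.trans (Finset.sum_le_sum hb)
          _ = ((d + 1 : ℕ) : ℝ) * (wa ^ (A.card - (d + 1)) * wb ^ (e - (d + 1))) := by
              rw [Finset.sum_const, card_nb G hx, nsmul_eq_mul]
          _ ≤ t3 ^ (d + 1) * (wa ^ (A.card - (d + 1)) * wb ^ (e - (d + 1))) :=
              mul_le_mul_of_nonneg_right (nat_le_t3_pow _) (by positivity)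
          _ = wa ^ ((A.card - (d + 1)) + (d + 1)) * wb ^ ((e - (d + 1)) + (d + 1)) := by
              rw [← wa_mul_wb, mul_pow, pow_add wa (A.card - (d + 1)) (d + 1),
                pow_add wb (e - (d + 1)) (d + 1)]
              ring
          _ = wa ^ A.card * wb ^ e := by rw [← hA2, ← he1]

/-! the dense range -/

/-- `(t^d - 1)/d` -/
noncomputable def sl (d : ℕ) : ℝ := (t3 ^ d - 1) / d

/-- the level of the `j`-th non-edge -/
def lv (j : ℕ) : ℕ := (Nat.sqrt (8 * j + 1) + 1) / 2

/-- the potential -/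
noncomputable def Ph (N : ℕ) : ℝ := ∑ j ∈ Finset.range N, sl (lv j)

lemma le_lv {d j : ℕ} (hd : 1 ≤ d) (h : d * (d - 1) ≤ 2 * j) : d ≤ lv j := by
  have h1 : 2 * d - 1 ≤ Nat.sqrt (8 * j + 1) := by
    rw [Nat.le_sqrt]
    obtain ⟨k, rfl⟩ : ∃ k, d = k + 1 := ⟨d - 1, by omega⟩
    have : 2 * (k + 1) - 1 = 2 * k + 1 := by omega
    rw [this]
    simp only [Nat.add_sub_cancel] at h
    nlinarith
  rw [lv]
  omega

lemma lv_le {d j : ℕ} (h : 2 * j < (d + 1) * d) : lv j ≤ d := by
  have h1 : Nat.sqrt (8 * j + 1) < 2 * d + 1 := by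
    rw [Nat.sqrt_lt]
    nlinarith
  rw [lv]
  omega

lemma sl_step {d : ℕ} (hd : 1 ≤ d) : sl d ≤ sl (d + 1) := by
  have hd' : (0 : ℝ) < d := by exact_mod_cast hd
  rw [sl, sl, div_le_div_iff₀ hd' (by positivity)]
  have hB : (1 : ℝ) + d * (t3 - 1) ≥ 0 := by
    have := t3_one; nlinarith
  have hpos : (0 : ℝ) < t3 ^ d := pow_pos t3_pos _
  -- Bernoulli in the form `1 ≥ t^d (1 - d (t-1))`
  have key : t3 ^ d * (1 - d * (t3 - 1)) ≤ 1 := by
    have hgen : ∀ k : ℕ, t3 ^ k * (1 - k * (t3 - 1)) ≤ 1 := by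
      intro k
      induction k with
      | zero => simp
      | succ n ih =>
        have h1 : t3 ^ (n + 1) * (1 - ((n + 1 : ℕ) : ℝ) * (t3 - 1)) =
            t3 ^ n * (1 - n * (t3 - 1)) - t3 ^ n * (n + 1) * (t3 - 1) ^ 2 := by
          push_cast; ring
        rw [h1]
        have h2 : 0 ≤ t3 ^ n * (n + 1) * (t3 - 1) ^ 2 := by
          have := pow_nonneg t3_pos.le n
          positivity
        linarith
    exact hgen d
  push_cast
  rw [pow_succ]
  nlinarith

lemma sl_mono {a b : ℕ} (ha : 1 ≤ a) (hab : a ≤ b) : sl a ≤ sl b := by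
  induction b, hab using Nat.le_induction with
  | base => exact le_rfl
  | succ n hn ih => exact ih.trans (sl_step (ha.trans hn))

lemma sl_nonneg (d : ℕ) : 0 ≤ sl d := by
  rw [sl]
  have : 1 ≤ t3 ^ d := one_le_pow₀ t3_one
  exact div_nonneg (by linarith) (Nat.cast_nonneg _)

lemma mul_sl {d : ℕ} (hd : 1 ≤ d) : (d : ℝ) * sl d = t3 ^ d - 1 := by
  have hd' : (0 : ℝ) < d := by exact_mod_cast hd
  rw [sl]; field_simp

lemma Ph_mono {a b : ℕ} (h : a ≤ b) : Ph a ≤ Ph b := by
  rw [Ph, Ph]
  exact Finset.sum_le_sum_of_subset_of_nonneg (Finset.range_mono h) (fun _ _ _ => sl_nonneg _)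

lemma Ph_step {N d : ℕ} (hd : 1 ≤ d) (hN : (d + 1) * d ≤ 2 * N) :
    Ph (N - d) + (t3 ^ d - 1) ≤ Ph N := by
  have hdN : d ≤ N := by nlinarith
  have h1 : Ph N = Ph (N - d) + ∑ j ∈ Finset.range d, sl (lv (N - d + j)) := by
    rw [Ph, Ph]
    conv_lhs => rw [← Nat.sub_add_cancel hdN]
    rw [Finset.sum_range_add]
  have h2 : ∑ j ∈ Finset.range d, sl d ≤ ∑ j ∈ Finset.range d, sl (lv (N - d + j)) := by
    refine Finset.sum_le_sum (fun j _ => sl_mono hd (le_lv hd ?_))
    obtain ⟨k, rfl⟩ : ∃ k, d = k + 1 := ⟨d - 1, by omega⟩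
    obtain ⟨m, rfl⟩ : ∃ m, N = m + (k + 1) := ⟨N - (k + 1), by omega⟩
    simp only [Nat.add_sub_cancel]
    nlinarith
  rw [Finset.sum_const, Finset.card_range, nsmul_eq_mul, mul_sl hd] at h2
  linarith

lemma Ph_tri (d : ℕ) : Ph (d * (d + 1) / 2) ≤ 10 / 3 * t3 ^ d := by
  induction d with
  | zero => simp [Ph]; norm_num
  | succ n ih =>
    have h0 : (n + 1) * (n + 1 + 1) / 2 = n * (n + 1) / 2 + (n + 1) := by
      have : (n + 1) * (n + 1 + 1) = n * (n + 1) + 2 * (n + 1) := by ring
      rw [this, Nat.add_mul_div_left _ _ (by norm_num)]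
    have h1 : Ph ((n + 1) * (n + 1 + 1) / 2) = Ph (n * (n + 1) / 2) +
        ∑ j ∈ Finset.range (n + 1), sl (lv (n * (n + 1) / 2 + j)) := by
      rw [h0, Ph, Ph, Finset.sum_range_add]
    have hev : 2 * (n * (n + 1) / 2) = n * (n + 1) :=
      Nat.mul_div_cancel' (Nat.even_mul_succ_self n).two_dvd
    have h2 : ∑ j ∈ Finset.range (n + 1), sl (lv (n * (n + 1) / 2 + j)) ≤
        ∑ j ∈ Finset.range (n + 1), sl (n + 1) := by
      refine Finset.sum_le_sum (fun j hj => ?_)
      have hj' := Finset.mem_range.1 hj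
      refine sl_mono ?_ (lv_le ?_)
      · rw [lv]
        have : 1 ≤ Nat.sqrt (8 * (n * (n + 1) / 2 + j) + 1) := by
          rw [Nat.le_sqrt]; omega
        omega
      · nlinarith
    rw [Finset.sum_const, Finset.card_range, nsmul_eq_mul, mul_sl (by omega)] at h2
    rw [h1]
    have h3 : t3 ^ (n + 1) = t3 * t3 ^ n := by ring
    have h4 : (0 : ℝ) < t3 ^ n := pow_pos t3_pos _
    have h5 := t3_lb
    nlinarith

lemma Ph_le (N : ℕ) : Ph N ≤ 5 * (3 : ℝ) ^ (Real.sqrt (2 * N) / 3) := by
  rcases Nat.eq_zero_or_pos N with rfl | hN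
  · simp [Ph]
  · set d := lv (N - 1) with hd
    have hN1 : N ≤ d * (d + 1) / 2 := by
      rw [Nat.le_div_iff_mul_le (by norm_num)]
      by_contra h
      push Not at h
      have h1 : d + 1 ≤ lv (N - 1) := by
        refine le_lv (by omega) ?_
        simp only [Nat.add_sub_cancel]
        have : (d + 1) * d = d * (d + 1) := by ring
        have hev : 2 * (d * (d + 1) / 2) = d * (d + 1) :=
          Nat.mul_div_cancel' (Nat.even_mul_succ_self d).two_dvd
        omega
      omega
    have hd2 : (d - 1) * d ≤ 2 * N := by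
      by_contra h
      push Not at h
      have hd1 : 1 ≤ d := by
        rw [hd]
        exact le_lv le_rfl (by simp)
      have h1 : lv (N - 1) ≤ d - 1 := by
        refine lv_le ?_
        have : (d - 1 + 1) * (d - 1) = (d - 1) * d := by
          rw [Nat.sub_add_cancel hd1]; ring
        rw [this]; omega
      omega
    have hs : ((d : ℝ) - 1) ≤ Real.sqrt (2 * N) := by
      rcases Nat.eq_zero_or_pos d with h0 | h0
      · rw [h0]
        have := Real.sqrt_nonneg (2 * (N : ℝ))
        rw [Nat.cast_zero]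
        linarith
      · apply Real.le_sqrt_of_sq_le
        have h1 : ((d - 1 : ℕ) : ℝ) * d ≤ 2 * N := by exact_mod_cast hd2
        rw [Nat.cast_sub h0] at h1
        have h2 : (1 : ℝ) ≤ d := by exact_mod_cast h0
        push_cast at h1
        nlinarith
    have h1 : Ph N ≤ 10 / 3 * t3 ^ d := (Ph_mono hN1).trans (Ph_tri d)
    have h2 : t3 ^ d = t3 * (3 : ℝ) ^ (((d : ℝ) - 1) / 3) := by
      rw [t3, ← Real.rpow_natCast, ← Real.rpow_mul (by norm_num), ← Real.rpow_add (by norm_num)]
      congr 1; ring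
    have h3 : (3 : ℝ) ^ (((d : ℝ) - 1) / 3) ≤ (3 : ℝ) ^ (Real.sqrt (2 * N) / 3) := by
      apply Real.rpow_le_rpow_of_exponent_le (by norm_num)
      linarith
    have h4 : (0 : ℝ) < (3 : ℝ) ^ (((d : ℝ) - 1) / 3) := Real.rpow_pos_of_pos (by norm_num) _
    have h5 := t3_ub
    rw [h2] at h1
    nlinarith

lemma dg_compl {A : Finset V} (x : V) : dg Gᶜ A x = (away G A x).card := by
  rw [dg, away]
  congr 1
  ext y
  simp only [Finset.mem_filter, SimpleGraph.compl_adj, not_or]
  constructor
  · rintro ⟨h1, h2, h3⟩; exact ⟨h1, fun h => h2 h.symm, h3⟩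
  · rintro ⟨h1, h2, h3⟩; exact ⟨h1, fun h => h2 h.symm, h3⟩

/-- bound in terms of vertices and non-edges -/
lemma le_dense (A : Finset V) (hA : A.Nonempty) : ∀ N : ℕ, e2 Gᶜ A ≤ 2 * N →
    ((MI G A).card : ℝ) ≤ A.card + Ph N := by
  induction A using Finset.strongInduction with
  | H A ih =>
    intro N hN
    obtain ⟨x, hx, hmin⟩ := exists_min_dg Gᶜ hA
    have hdx := dg_compl G (A := A) x
    set d := dg Gᶜ A x with hd
    have hc := card_away G hx
    have h1 : ((MI G A).card : ℝ) ≤ (MI G (A.erase x)).card + (MI G (away G A x)).card := by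
      exact_mod_cast rec2 G hx
    have h2 : ((MI G (away G A x)).card : ℝ) ≤ t3 ^ d := by
      rw [hdx]; exact moon_moser G _
    have hAc : 1 ≤ A.card := Finset.card_pos.2 hA
    rcases (A.erase x).eq_empty_or_nonempty with he | he
    · have hA1 : A.card = 1 := by
        have := Finset.card_erase_of_mem hx
        rw [he] at this
        simp at this
        omega
      have haw : away G A x = ∅ := by
        rw [← Finset.card_eq_zero]; omega
      have hnb : nb G A x = {x} := by
        have hcn := card_nb G hx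
        have h0 : dg G A x = 0 := by omega
        rw [h0] at hcn
        obtain ⟨a, ha⟩ := Finset.card_eq_one.1 hcn
        have hxm : x ∈ nb G A x := by simp [nb, hx]
        rw [ha] at hxm ⊢
        rw [Finset.mem_singleton.1 hxm]
      have h3 := rec1 G hx
      rw [hnb, Finset.sum_singleton, haw, MI_empty] at h3
      have h4 : 0 ≤ Ph N := by
        have := Ph_mono (Nat.zero_le N)
        simpa [Ph] using this
      have h5 : ((MI G A).card : ℝ) ≤ 1 := by exact_mod_cast h3
      rw [hA1]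
      push_cast
      linarith
    · have hcard : ((A.erase x).card : ℝ) = A.card - 1 := by
        rw [Finset.card_erase_of_mem hx, Nat.cast_sub hAc]; simp
      have he2 := e2_erase Gᶜ hx
      have h3 := ih _ (Finset.erase_ssubset hx) he (N - d) (by omega)
      rw [hcard] at h3
      rcases Nat.eq_zero_or_pos d with h0 | h0
      · rw [h0] at h2 h3
        simp only [pow_zero, Nat.sub_zero] at h2 h3
        linarith
      · have hsum : A.card * d ≤ e2 Gᶜ A := by
          calc A.card * d = ∑ z ∈ A, d := by simp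
            _ ≤ _ := Finset.sum_le_sum (fun z hz => hmin z hz)
        have hAd : d + 1 ≤ A.card := by omega
        have h4 : (d + 1) * d ≤ 2 * N :=
          (Nat.mul_le_mul_right d hAd).trans (hsum.trans hN)
        have h5 := Ph_step h0 h4
        linarith

end upper

/-! ### links with the definitions -/

lemma isMIS_iff {V : Type*} (G : SimpleGraph V) (S : Finset V) :
    IsMIS G S ↔ Indep G S ∧ ∀ x, x ∉ S → ∃ y ∈ S, G.Adj x y := by
  constructor
  · rintro ⟨h1, h2⟩
    refine ⟨h1, fun x hx => ?_⟩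
    have h3 := h2 (insert x S) (Finset.ssubset_insert hx)
    by_contra h4
    push Not at h4
    apply h3
    intro a ha b hb hab
    rcases Finset.mem_insert.1 ha with rfl | ha'
    · rcases Finset.mem_insert.1 hb with rfl | hb'
      · exact G.loopless.irrefl _ hab
      · exact h4 b hb' hab
    · rcases Finset.mem_insert.1 hb with rfl | hb'
      · exact h4 a ha' hab.symm
      · exact h1 a ha' b hb' hab
  · rintro ⟨h1, h2⟩
    refine ⟨h1, fun T hT hTi => ?_⟩
    obtain ⟨x, hxT, hxS⟩ := Finset.exists_of_ssubset hT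
    obtain ⟨y, hy, hxy⟩ := h2 x hxS
    exact hTi x hxT y (hT.1 hy) hxy

lemma misCount_eq {V : Type*} [Fintype V] (G : SimpleGraph V) :
    misCount G = (MI G Finset.univ).card := by
  rw [misCount, Nat.card_eq_fintype_card, Fintype.card_subtype]
  congr 1
  ext S
  rw [mem_MI]
  simp only [Finset.mem_filter, Finset.mem_univ, true_and, Finset.subset_univ, forall_true_left]
  exact isMIS_iff G S

lemma e2_univ {v : ℕ} (G : SimpleGraph (Fin v)) :
    e2 G Finset.univ = 2 * Nat.card G.edgeSet := by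
  have h := G.sum_degrees_eq_twice_card_edges
  rw [Nat.card_eq_fintype_card, ← SimpleGraph.edgeFinset_card, ← h, e2]
  refine Finset.sum_congr rfl (fun x _ => ?_)
  rw [dg, ← SimpleGraph.card_neighborFinset_eq_degree]
  congr 1
  ext y
  simp

lemma two_choose (v : ℕ) : 2 * v.choose 2 = v * (v - 1) := by
  rw [Nat.choose_two_right]
  exact Nat.mul_div_cancel' (Nat.even_mul_pred_self v).two_dvd

lemma e2_compl_univ {v : ℕ} (G : SimpleGraph (Fin v)) :
    e2 Gᶜ Finset.univ = 2 * (v.choose 2 - Nat.card G.edgeSet) := by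
  have h1 : e2 G Finset.univ + e2 Gᶜ Finset.univ = v * (v - 1) := by
    rw [e2, e2, ← Finset.sum_add_distrib]
    have : ∀ x ∈ (Finset.univ : Finset (Fin v)),
        dg G Finset.univ x + dg Gᶜ Finset.univ x = v - 1 := by
      intro x hx
      have h := card_away G hx
      rw [Finset.card_univ, Fintype.card_fin] at h
      rw [dg_compl]
      omega
    rw [Finset.sum_congr rfl this]
    simp
  have h2 := e2_univ G
  have h3 := two_choose v
  omega

lemma misCount_bdd (v e : ℕ) :
    BddAbove {k | ∃ G : SimpleGraph (Fin v), Nat.card G.edgeSet = e ∧ misCount G = k} := by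
  refine ⟨Fintype.card (Finset (Fin v)), ?_⟩
  rintro k ⟨G, -, rfl⟩
  rw [misCount_eq]
  exact Finset.card_le_univ _

lemma le_mu {v e : ℕ} {G : SimpleGraph (Fin v)} (h : Nat.card G.edgeSet = e) :
    misCount G ≤ mu v e := le_csSup (misCount_bdd v e) ⟨G, h, rfl⟩

/-! ### lower bounds -/

lemma exists_mis_ge {V : Type*} [Fintype V] (G : SimpleGraph V) {S : Finset V}
    (hS : Indep G S) : ∃ T, S ⊆ T ∧ IsMIS G T := by
  obtain ⟨T, hT, hmax⟩ := Finite.exists_le_maximal (p := fun T => Indep G T) hS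
  refine ⟨T, hT, hmax.1, fun U hU hUi => ?_⟩
  exact hU.2 (hmax.2 hUi hU.1)

lemma prod_le_misCount {V : Type*} [Fintype V] (G : SimpleGraph V) {ι : Type*} [Fintype ι]
    (s : ι → ℕ) (f : (Σ i, Fin (s i)) → V)
    (hadj : ∀ x y, G.Adj (f x) (f y) ↔ (x.1 = y.1 ∧ x ≠ y)) :
    ∏ i, s i ≤ misCount G := by
  have h0 : ∀ g : (i : ι) → Fin (s i), ∃ T : Finset V,
      (Finset.univ.image (fun i => f ⟨i, g i⟩)) ⊆ T ∧ IsMIS G T := by
    intro g
    apply exists_mis_ge
    intro a ha b hb hab
    obtain ⟨i, -, rfl⟩ := Finset.mem_image.1 ha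
    obtain ⟨j, -, rfl⟩ := Finset.mem_image.1 hb
    have h := (hadj _ _).1 hab
    obtain ⟨h1, h2⟩ := h
    simp only at h1
    subst h1
    exact h2 rfl
  choose T hT1 hT2 using h0
  have hinj : Function.Injective
      (fun g : (i : ι) → Fin (s i) => (⟨T g, hT2 g⟩ : {S : Finset V // IsMIS G S})) := by
    intro g g' hgg
    have hTT : T g = T g' := congrArg Subtype.val hgg
    funext i
    by_contra hne
    have h1 : f ⟨i, g i⟩ ∈ T g := hT1 g (Finset.mem_image_of_mem _ (Finset.mem_univ i))
    have h2 : f ⟨i, g' i⟩ ∈ T g := by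
      rw [hTT]; exact hT1 g' (Finset.mem_image_of_mem _ (Finset.mem_univ i))
    refine (hT2 g).1 _ h1 _ h2 ((hadj _ _).2 ⟨rfl, ?_⟩)
    intro h
    apply hne
    simpa using h
  have h3 := Nat.card_le_card_of_injective _ hinj
  rw [misCount]
  calc ∏ i, s i = Nat.card ((i : ι) → Fin (s i)) := by
        rw [Nat.card_eq_fintype_card, Fintype.card_pi]; simp
    _ ≤ _ := h3

/-- unordered pairs of distinct elements of `A` -/
noncomputable def prs {v : ℕ} (A : Finset (Fin v)) : Finset (Sym2 (Fin v)) :=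
  A.offDiag.image (fun p => s(p.1, p.2))

lemma card_prs {v : ℕ} (A : Finset (Fin v)) : (prs A).card = A.card.choose 2 := by
  rw [prs]
  exact Sym2.card_image_offDiag A

lemma mk_mem_prs {v : ℕ} {A : Finset (Fin v)} {x y : Fin v} :
    s(x, y) ∈ prs A ↔ x ∈ A ∧ y ∈ A ∧ x ≠ y := by
  rw [prs, Finset.mem_image]
  constructor
  · rintro ⟨⟨a, b⟩, h1, h2⟩
    rw [Finset.mem_offDiag] at h1
    simp only [Sym2.eq_iff] at h2
    rcases h2 with ⟨rfl, rfl⟩ | ⟨rfl, rfl⟩
    · exact h1
    · exact ⟨h1.2.1, h1.1, fun h => h1.2.2 h.symm⟩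
  · intro h
    exact ⟨(x, y), by rw [Finset.mem_offDiag]; exact h, rfl⟩

lemma prs_mono {v : ℕ} {A B : Finset (Fin v)} (h : A ⊆ B) : prs A ⊆ prs B := by
  intro z
  induction z with
  | h x y =>
    rw [mk_mem_prs, mk_mem_prs]
    exact fun hh => ⟨h hh.1, h hh.2.1, hh.2.2⟩

lemma card_fromEdge {v : ℕ} (F : Finset (Sym2 (Fin v))) (hF : F ⊆ prs Finset.univ) :
    Nat.card (SimpleGraph.fromEdgeSet (F : Set (Sym2 (Fin v)))).edgeSet = F.card := by
  have h : (SimpleGraph.fromEdgeSet (F : Set (Sym2 (Fin v)))).edgeSet = (F : Set (Sym2 (Fin v))) := by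
    rw [SimpleGraph.edgeSet_fromEdgeSet]
    ext z
    simp only [Set.mem_sdiff, Finset.mem_coe, and_iff_left_iff_imp]
    intro hz hd
    have h1 := hF hz
    induction z with
    | h x y =>
      rw [mk_mem_prs] at h1
      simp at hd
      exact h1.2.2 hd
  rw [h]
  simp

lemma exists_core {v e : ℕ} {ι : Type} [Fintype ι] (s : ι → ℕ) (hm : ∑ i, s i ≤ v)
    (h1 : ∑ i, (s i).choose 2 ≤ e)
    (h2 : e + (∑ i, s i).choose 2 ≤ ∑ i, (s i).choose 2 + v.choose 2) :
    ∏ i, s i ≤ mu v e := by
  obtain ⟨f⟩ : Nonempty ((Σ i, Fin (s i)) ↪ Fin v) := by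
    apply Function.Embedding.nonempty_of_card_le
    simpa [Fintype.card_sigma] using hm
  set blk : ι → Finset (Fin v) := fun i => Finset.univ.image (fun p : Fin (s i) => f ⟨i, p⟩)
    with hblk
  have hblkmem : ∀ i x, f x ∈ blk i ↔ x.1 = i := by
    intro i x
    simp only [hblk, Finset.mem_image, Finset.mem_univ, true_and]
    constructor
    · rintro ⟨p, hp⟩
      have := f.injective hp
      rw [← this]
    · rintro rfl
      exact ⟨x.2, rfl⟩
  have hblkcard : ∀ i, (blk i).card = s i := by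
    intro i
    rw [hblk]
    simp only
    rw [Finset.card_image_of_injective, Finset.card_univ, Fintype.card_fin]
    intro p q hpq
    have := f.injective hpq
    simpa using this
  set F0 : Finset (Sym2 (Fin v)) := Finset.univ.biUnion (fun i => prs (blk i)) with hF0
  set C : Finset (Fin v) := Finset.univ.image f with hC
  have hblkC : ∀ i, blk i ⊆ C := by
    intro i z hz
    simp only [hblk, Finset.mem_image, Finset.mem_univ, true_and] at hz
    obtain ⟨p, rfl⟩ := hz
    exact Finset.mem_image_of_mem _ (Finset.mem_univ _)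
  have hCcard : C.card = ∑ i, s i := by
    rw [hC, Finset.card_image_of_injective _ f.injective, Finset.card_univ, Fintype.card_sigma]
    simp
  have hF0card : F0.card = ∑ i, (s i).choose 2 := by
    rw [hF0, Finset.card_biUnion]
    · refine Finset.sum_congr rfl (fun i _ => ?_)
      rw [card_prs, hblkcard]
    · intro i _ j _ hij
      rw [Function.onFun, Finset.disjoint_left]
      intro z hz hz'
      induction z with
      | h x y =>
        rw [mk_mem_prs] at hz hz'
        have hx : x ∈ C := hblkC i hz.1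
        obtain ⟨w, -, rfl⟩ := Finset.mem_image.1 hx
        exact hij (((hblkmem i w).1 hz.1).symm.trans ((hblkmem j w).1 hz'.1))
  have hF0C : F0 ⊆ prs C := by
    rw [hF0]
    intro z hz
    obtain ⟨i, -, hi⟩ := Finset.mem_biUnion.1 hz
    exact prs_mono (hblkC i) hi
  have hXcard : (prs Finset.univ \ prs C).card = v.choose 2 - (∑ i, s i).choose 2 := by
    rw [Finset.card_sdiff_of_subset (prs_mono (Finset.subset_univ C)), card_prs, card_prs, hCcard,
      Finset.card_univ, Fintype.card_fin]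
  have hmono : (∑ i, s i).choose 2 ≤ v.choose 2 := Nat.choose_le_choose 2 hm
  obtain ⟨F1, hF1, hF1card⟩ := Finset.exists_subset_card_eq
    (s := prs Finset.univ \ prs C) (n := e - ∑ i, (s i).choose 2) (by rw [hXcard]; omega)
  have hdisj : Disjoint F0 F1 := by
    rw [Finset.disjoint_left]
    intro z hz hz'
    exact (Finset.mem_sdiff.1 (hF1 hz')).2 (hF0C hz)
  set F := F0 ∪ F1 with hF
  have hFcard : F.card = e := by
    rw [hF, Finset.card_union_of_disjoint hdisj, hF0card, hF1card]; omega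
  have hFsub : F ⊆ prs Finset.univ := by
    rw [hF]
    refine Finset.union_subset (hF0C.trans (prs_mono (Finset.subset_univ C))) ?_
    exact hF1.trans Finset.sdiff_subset
  have hedge := card_fromEdge F hFsub
  rw [hFcard] at hedge
  refine le_trans ?_ (le_mu hedge)
  refine prod_le_misCount _ s f ?_
  intro x y
  rw [SimpleGraph.fromEdgeSet_adj]
  constructor
  · rintro ⟨h3, h4⟩
    refine ⟨?_, fun h => h4 (by rw [h])⟩
    rw [Finset.mem_coe, hF, Finset.mem_union] at h3
    rcases h3 with h3 | h3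
    · obtain ⟨i, -, hi⟩ := Finset.mem_biUnion.1 h3
      rw [mk_mem_prs] at hi
      exact ((hblkmem i x).1 hi.1).trans ((hblkmem i y).1 hi.2.1).symm
    · exfalso
      apply (Finset.mem_sdiff.1 (hF1 h3)).2
      rw [mk_mem_prs]
      exact ⟨Finset.mem_image_of_mem _ (Finset.mem_univ _),
        Finset.mem_image_of_mem _ (Finset.mem_univ _), h4⟩
  · rintro ⟨h3, h4⟩
    have h5 : f x ≠ f y := fun h => h4 (f.injective h)
    refine ⟨?_, h5⟩
    rw [Finset.mem_coe, hF, Finset.mem_union]
    left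
    rw [hF0, Finset.mem_biUnion]
    refine ⟨x.1, Finset.mem_univ _, ?_⟩
    rw [mk_mem_prs]
    exact ⟨(hblkmem _ _).2 rfl, (hblkmem _ _).2 h3.symm, h5⟩

lemma exists_star {v e n : ℕ} (he : e ≤ v.choose 2) (hn : n ≤ v)
    (h : v.choose 2 - e ≤ n.choose 2) : v - n ≤ mu v e := by
  obtain ⟨B, -, hB⟩ := Finset.exists_subset_card_eq
    (s := (Finset.univ : Finset (Fin v))) (n := n) (by simpa using hn)
  obtain ⟨F', hF', hF'card⟩ := Finset.exists_subset_card_eq
    (s := prs B) (n := v.choose 2 - e) (by rw [card_prs, hB]; exact h)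
  have hsub : F' ⊆ prs Finset.univ := hF'.trans (prs_mono (Finset.subset_univ B))
  have hcard : (prs Finset.univ \ F').card = e := by
    rw [Finset.card_sdiff_of_subset hsub, card_prs, Finset.card_univ, Fintype.card_fin, hF'card]
    omega
  have hedge := card_fromEdge (prs Finset.univ \ F') Finset.sdiff_subset
  rw [hcard] at hedge
  refine le_trans ?_ (le_mu hedge)
  set G := SimpleGraph.fromEdgeSet ((prs Finset.univ \ F' : Finset (Sym2 (Fin v))) :
    Set (Sym2 (Fin v))) with hG
  have hMIS : ∀ x : Fin v, x ∉ B → IsMIS G {x} := by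
    intro x hx
    rw [isMIS_iff]
    refine ⟨?_, ?_⟩
    · intro a ha b hb hab
      rw [Finset.mem_singleton] at ha hb
      subst ha; subst hb
      exact G.loopless.irrefl _ hab
    · intro z hz
      rw [Finset.mem_singleton] at hz
      refine ⟨x, Finset.mem_singleton_self x, ?_⟩
      rw [hG, SimpleGraph.fromEdgeSet_adj]
      refine ⟨?_, hz⟩
      rw [Finset.mem_coe, Finset.mem_sdiff]
      refine ⟨mk_mem_prs.2 ⟨Finset.mem_univ _, Finset.mem_univ _, hz⟩, fun hc => ?_⟩
      have := hF' hc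
      rw [mk_mem_prs] at this
      exact hx this.2.1
  have hinj : Function.Injective
      (fun x : {x : Fin v // x ∉ B} => (⟨{x.1}, hMIS x.1 x.2⟩ : {S : Finset (Fin v) // IsMIS G S})) := by
    intro x y hxy
    have := congrArg Subtype.val hxy
    simp only [Finset.singleton_inj] at this
    exact Subtype.ext this
  have h3 := Nat.card_le_card_of_injective _ hinj
  rw [misCount]
  refine le_trans (le_of_eq ?_) h3
  rw [Nat.card_eq_fintype_card, Fintype.card_subtype_compl, Fintype.card_coe, hB,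
    Fintype.card_fin]

/-! ### the final statement -/

lemma exists_attain {v e : ℕ} (he : e ≤ v.choose 2) :
    ∃ G : SimpleGraph (Fin v), Nat.card G.edgeSet = e ∧ misCount G = mu v e := by
  have hne : {k | ∃ G : SimpleGraph (Fin v), Nat.card G.edgeSet = e ∧ misCount G = k}.Nonempty := by
    obtain ⟨F, hF, hFc⟩ := Finset.exists_subset_card_eq
      (s := prs (Finset.univ : Finset (Fin v))) (n := e) (by rw [card_prs]; simpa using he)
    exact ⟨_, SimpleGraph.fromEdgeSet (F : Set (Sym2 (Fin v))), by rw [card_fromEdge F hF, hFc], rfl⟩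
  exact Nat.sSup_mem hne (misCount_bdd v e)

lemma t3_pow_eq (k : ℕ) : t3 ^ k = (3 : ℝ) ^ ((k : ℝ) / 3) := by
  rw [t3, ← Real.rpow_natCast, ← Real.rpow_mul (by norm_num)]
  congr 1; ring

lemma upper1 {v e : ℕ} (he : e ≤ v.choose 2) : mu v e ≤ 2 ^ e := by
  obtain ⟨G, hG, hmu⟩ := exists_attain he
  rw [← hmu, misCount_eq]
  exact le_two_pow G _ e (by rw [e2_univ, hG])

lemma lower1 {v e : ℕ} (h : 2 * e ≤ v) : 2 ^ e ≤ mu v e := by
  have h1 := exists_core (v := v) (e := e) (ι := Fin e) (fun _ => 2) (by simp; omega) (by simp) ?_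
  · simpa using h1
  · simp only [Finset.sum_const, Finset.card_univ, Fintype.card_fin, smul_eq_mul]
    have : (e * 2).choose 2 ≤ v.choose 2 := Nat.choose_le_choose 2 (by omega)
    simp only [Nat.choose_self]
    omega

lemma upper2 {v e : ℕ} (he : e ≤ v.choose 2) (h1 : v ≤ 2 * e) (h2 : e ≤ v) :
    (mu v e : ℝ) ≤ 2 ^ (v - e) * 3 ^ (((2 * e - v : ℕ) : ℝ) / 3) := by
  obtain ⟨G, hG, hmu⟩ := exists_attain he
  rw [← hmu, misCount_eq]
  have h3 := le_sparse G Finset.univ e (by rw [e2_univ, hG])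
  refine h3.trans (le_of_eq ?_)
  rw [Finset.card_univ, Fintype.card_fin, ← t3_pow_eq]
  obtain ⟨a, rfl⟩ : ∃ a, v = e + a := ⟨v - e, by omega⟩
  obtain ⟨b, rfl⟩ : ∃ b, e = a + b := ⟨e - a, by omega⟩
  have e1 : a + b + a - (a + b) = a := by omega
  have e2 : 2 * (a + b) - (a + b + a) = b := by omega
  rw [e1, e2]
  calc wa ^ (a + b + a) * wb ^ (a + b) = (wa ^ 2 * wb) ^ a * (wa * wb) ^ b := by
        rw [mul_pow, mul_pow, ← pow_mul, pow_add, pow_add, pow_add]
        ring
    _ = 2 ^ a * t3 ^ b := by rw [wa2_mul_wb, wa_mul_wb]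

lemma core23 {v e a b : ℕ} (hm : 2 * a + 3 * b ≤ v) (h1 : a + 3 * b ≤ e)
    (h2 : e + (2 * a + 3 * b).choose 2 ≤ a + 3 * b + v.choose 2) :
    2 ^ a * 3 ^ b ≤ mu v e := by
  have h := exists_core (v := v) (e := e) (ι := Fin a ⊕ Fin b)
    (Sum.elim (fun _ => 2) (fun _ => 3))
  simp only [Fintype.sum_sum_type, Sum.elim_inl, Sum.elim_inr, Finset.sum_const,
    Finset.card_univ, Fintype.card_fin, smul_eq_mul, Nat.choose_self, Fintype.prod_sum_type,
    Finset.prod_const] at h
  have h32 : Nat.choose 3 2 = 3 := by decide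
  rw [h32] at h
  refine h (by omega) (by omega) ?_
  have e1 : a * 2 + b * 3 = 2 * a + 3 * b := by ring
  rw [e1]
  omega

lemma lower2 {v e : ℕ} (he : e ≤ v.choose 2) (h1 : v ≤ 2 * e) (h2 : e ≤ v) :
    (2 : ℝ) ^ (v - e) * 3 ^ (((2 * e - v : ℕ) : ℝ) / 3) / 5 ≤ mu v e := by
  -- choice of the numbers of blocks
  obtain ⟨a, b, ha, hb, hle⟩ : ∃ a b : ℕ, v - e ≤ a + 1 ∧ 2 * e - v ≤ 3 * b + 2 ∧
      2 ^ a * 3 ^ b ≤ mu v e := by
    have hv2 := two_choose v
    rcases Nat.eq_zero_or_pos ((2 * e - v) % 3) with h0 | h0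
    · refine ⟨v - e, (2 * e - v) / 3, by omega, by omega, core23 (by omega) (by omega) ?_⟩
      have hmv : 2 * (v - e) + 3 * ((2 * e - v) / 3) = v := by omega
      rw [hmv]
      omega
    · rcases Nat.lt_or_ge e v with hlt | hge
      · refine ⟨v - e - 1, (2 * e - v) / 3, by omega, by omega, core23 (by omega) (by omega) ?_⟩
        set m := 2 * (v - e - 1) + 3 * ((2 * e - v) / 3) with hm
        have hm2 := two_choose m
        have hmv : m + 3 ≤ v := by omega
        have h6 : e ≤ (v - e - 1) + 3 * ((2 * e - v) / 3) + 3 := by omega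
        have h7 : m.choose 2 + 3 ≤ v.choose 2 := by
          have h8 : (m + 3).choose 2 ≤ v.choose 2 := Nat.choose_le_choose 2 hmv
          have h9 : (m + 3).choose 2 = m.choose 2 + 3 * m + 3 := by
            have := two_choose (m + 3)
            have e1 : m + 3 - 1 = m + 2 := by omega
            rw [e1] at this
            rcases Nat.eq_zero_or_pos m with hm0 | hm0
            · rw [hm0]; decide
            · obtain ⟨k, hk⟩ : ∃ k, m = k + 1 := ⟨m - 1, by omega⟩
              rw [hk] at this hm2 ⊢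
              simp only [Nat.add_sub_cancel] at hm2
              nlinarith
          omega
        omega
      · have hev : e = v := le_antisymm h2 hge
        subst hev
        refine ⟨0, e / 3, by omega, by omega, core23 (by omega) (by omega) ?_⟩
        have hm2 := two_choose (2 * 0 + 3 * (e / 3))
        set m := 2 * 0 + 3 * (e / 3) with hm
        have h3 : e = m + e % 3 := by omega
        have h4 : e % 3 = 1 ∨ e % 3 = 2 := by omega
        have h5 : 3 ≤ e := by
          by_contra h6
          push Not at h6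
          interval_cases e
          · simp at h0
          · simp at he
          · simp at he
        rcases h4 with h4 | h4
        · have h6 : e.choose 2 = m.choose 2 + m := by
            rw [h4] at h3
            conv_lhs => rw [h3]
            rw [Nat.choose_succ_succ' m 1, Nat.choose_one_right]; ring
          omega
        · have h6 : e.choose 2 = m.choose 2 + m + (m + 1) := by
            rw [h4] at h3
            conv_lhs => rw [h3]
            rw [Nat.choose_succ_succ' (m + 1) 1, Nat.choose_succ_succ' m 1, Nat.choose_one_right,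
              Nat.choose_one_right]; ring
          omega
  have h3 : ((2 : ℝ) ^ a * 3 ^ b) ≤ mu v e := by exact_mod_cast hle
  refine le_trans ?_ h3
  rw [← t3_pow_eq]
  have h4 : (2 : ℝ) ^ (v - e) ≤ 2 * 2 ^ a := by
    calc (2 : ℝ) ^ (v - e) ≤ 2 ^ (a + 1) := pow_le_pow_right₀ (by norm_num) ha
      _ = 2 * 2 ^ a := by ring
  have h5 : t3 ^ (2 * e - v) ≤ t3 ^ 2 * 3 ^ b := by
    calc t3 ^ (2 * e - v) ≤ t3 ^ (3 * b + 2) := pow_le_pow_right₀ t3_one hb
      _ = t3 ^ 2 * 3 ^ b := by rw [pow_add, pow_mul, t3_cube]; ring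
  have h6 : t3 ^ 2 ≤ 2.1 := by
    have h7 := t3_ub
    have h8 := t3_pos
    nlinarith
  have h7 : (0 : ℝ) < 2 ^ a := by positivity
  have h8 : (0 : ℝ) < 3 ^ b := by positivity
  have h9 : (0 : ℝ) < t3 ^ (2 * e - v) := pow_pos t3_pos _
  rw [div_le_iff₀ (by norm_num)]
  calc (2 : ℝ) ^ (v - e) * t3 ^ (2 * e - v) ≤ (2 * 2 ^ a) * (t3 ^ 2 * 3 ^ b) :=
        mul_le_mul h4 h5 h9.le (by positivity)
    _ = (2 ^ a * 3 ^ b) * (2 * t3 ^ 2) := by ring
    _ ≤ (2 ^ a * 3 ^ b) * 5 := by
        apply mul_le_mul_of_nonneg_left _ (by positivity)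
        linarith

lemma upper3 {v e : ℕ} (hv : 1 ≤ v) (he : e ≤ v.choose 2) :
    (mu v e : ℝ) ≤ v + 5 * 3 ^ (Real.sqrt (2 * ((v.choose 2 - e : ℕ) : ℝ)) / 3) := by
  obtain ⟨G, hG, hmu⟩ := exists_attain he
  rw [← hmu, misCount_eq]
  have hne : (Finset.univ : Finset (Fin v)).Nonempty := by
    rw [Finset.univ_nonempty_iff]
    exact ⟨⟨0, hv⟩⟩
  have h3 := le_dense G Finset.univ hne (v.choose 2 - e) (by rw [e2_compl_univ, hG])
  rw [Finset.card_univ, Fintype.card_fin] at h3
  exact h3.trans (add_le_add le_rfl (Ph_le _))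

lemma lower3 {v e : ℕ} (hv : 1 ≤ v) (he : e ≤ v.choose 2) (hve : v ≤ e) :
    (3 : ℝ) ^ (Real.sqrt (2 * ((v.choose 2 - e : ℕ) : ℝ)) / 3 - 1 / 2) ≤ mu v e := by
  set N := v.choose 2 - e with hN
  have hex : ∃ k, 2 * N < 9 * ((k + 1) * k) := ⟨N + 1, by nlinarith⟩
  set k := Nat.find hex with hk
  have hk1 : 2 * N < 9 * ((k + 1) * k) := Nat.find_spec hex
  have hk0 : 1 ≤ k := by
    rcases Nat.eq_zero_or_pos k with h | h
    · rw [h] at hk1; simp at hk1
    · exact h
  have hk2 : 9 * (k * (k - 1)) ≤ 2 * N := by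
    have h := Nat.find_min hex (m := k - 1) (by omega)
    rw [Nat.sub_add_cancel hk0] at h
    omega
  have hv2 := two_choose v
  have hkv : 3 * k ≤ v := by
    by_contra h
    push Not at h
    obtain ⟨j, hj⟩ : ∃ j, k = j + 1 := ⟨k - 1, by omega⟩
    obtain ⟨w, hw⟩ : ∃ w, v = w + 1 := ⟨v - 1, by omega⟩
    rw [hj] at hk2 h
    rw [hw] at hv2 h hve
    simp only [Nat.add_sub_cancel] at hk2 hv2
    have h2N : 2 * N + 2 * (w + 1) ≤ (w + 1) * w := by
      rw [← hv2, ← hw]; rw [← hw] at hve; omega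
    nlinarith
  have h2 := core23 (v := v) (e := e) (a := 0) (b := k) (by omega) (by omega) ?_
  · have h3 : (3 : ℝ) ^ k ≤ mu v e := by
      have : ((2 ^ 0 * 3 ^ k : ℕ) : ℝ) ≤ mu v e := by exact_mod_cast h2
      push_cast at this
      simpa using this
    refine le_trans ?_ h3
    rw [← Real.rpow_natCast]
    apply Real.rpow_le_rpow_of_exponent_le (by norm_num)
    have h4 : Real.sqrt (2 * (N : ℝ)) ≤ 3 * k + 3 / 2 := by
      apply Real.sqrt_le_iff.2
      constructor
      · positivity
      · have h5 : (2 * (N : ℝ)) < 9 * ((k + 1) * k) := by exact_mod_cast hk1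
        nlinarith
    linarith
  · have hc := two_choose (2 * 0 + 3 * k)
    have e1 : 2 * 0 + 3 * k = 3 * k := by ring
    rw [e1] at hc ⊢
    obtain ⟨j, hj⟩ : ∃ j, k = j + 1 := ⟨k - 1, by omega⟩
    rw [hj] at hc hk2 ⊢
    have e2 : 3 * (j + 1) - 1 = 3 * j + 2 := by omega
    rw [e2] at hc
    simp only [Nat.add_sub_cancel] at hk2
    have h5 : 2 * (3 * (j + 1)).choose 2 ≤ 2 * (3 * (j + 1)) + 2 * N := by
      rw [hc]; nlinarith
    omega

lemma lower4 {v e : ℕ} (he : e ≤ v.choose 2) :
    (v : ℝ) - Real.sqrt (2 * ((v.choose 2 - e : ℕ) : ℝ)) - 2 ≤ mu v e := by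
  set N := v.choose 2 - e with hN
  have hex : ∃ n : ℕ, N ≤ n.choose 2 := ⟨v, by omega⟩
  set n := Nat.find hex with hn
  have hn1 : N ≤ n.choose 2 := Nat.find_spec hex
  have hnv : n ≤ v := Nat.find_min' hex (by omega)
  have h1 := exists_star he hnv hn1
  have h2 : (v : ℝ) - n ≤ mu v e := by
    have : ((v - n : ℕ) : ℝ) ≤ mu v e := by exact_mod_cast h1
    rwa [Nat.cast_sub hnv] at this
  have h3 : (n : ℝ) ≤ Real.sqrt (2 * (N : ℝ)) + 2 := by
    rcases Nat.lt_or_ge n 2 with h4 | h4
    · have : (n : ℝ) < 2 := by exact_mod_cast h4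
      have := Real.sqrt_nonneg (2 * (N : ℝ))
      linarith
    · have h5 := Nat.find_min hex (m := n - 1) (by omega)
      push Not at h5
      have h6 := two_choose (n - 1)
      obtain ⟨j, hj⟩ : ∃ j, n = j + 2 := ⟨n - 2, by omega⟩
      have e1 : n - 1 = j + 1 := by omega
      rw [e1] at h5 h6
      simp only [Nat.add_sub_cancel] at h6
      have h7 : (j : ℝ) ≤ Real.sqrt (2 * (N : ℝ)) := by
        apply Real.le_sqrt_of_sq_le
        have h8 : j ^ 2 ≤ 2 * N := by nlinarith
        exact_mod_cast h8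
      rw [hj]; push_cast; linarith
  linarith

/-- The order of magnitude of `mu v e` for every pair of integers. -/
theorem result (v e : ℕ) (hv : 1 ≤ v) (he : e ≤ v.choose 2) :
    (2 * e ≤ v → mu v e = 2 ^ e) ∧
    (v ≤ 2 * e → e ≤ v →
      (2 : ℝ) ^ (v - e) * 3 ^ (((2 * e - v : ℕ) : ℝ) / 3) / 5 ≤ mu v e ∧
      (mu v e : ℝ) ≤ 2 ^ (v - e) * 3 ^ (((2 * e - v : ℕ) : ℝ) / 3)) ∧
    (v ≤ e →
      (3 : ℝ) ^ (Real.sqrt (2 * ((v.choose 2 - e : ℕ) : ℝ)) / 3 - 1 / 2) ≤ mu v e ∧
      (v : ℝ) - Real.sqrt (2 * ((v.choose 2 - e : ℕ) : ℝ)) - 2 ≤ mu v e ∧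
      ((v : ℝ) + 3 ^ (Real.sqrt (2 * ((v.choose 2 - e : ℕ) : ℝ)) / 3)) / 8 ≤ mu v e ∧
      (mu v e : ℝ) ≤ v + 5 * 3 ^ (Real.sqrt (2 * ((v.choose 2 - e : ℕ) : ℝ)) / 3)) := by
  refine ⟨fun h => le_antisymm (upper1 he) (lower1 h),
    fun h1 h2 => ⟨lower2 he h1 h2, upper2 he h1 h2⟩,
    fun h => ⟨lower3 hv he h, lower4 he, ?_, upper3 hv he⟩⟩
  have h1 := lower3 hv he h
  have h2 := lower4 he
  set x := Real.sqrt (2 * ((v.choose 2 - e : ℕ) : ℝ)) with hx
  have hx0 : 0 ≤ x := Real.sqrt_nonneg _
  have h3 : (3 : ℝ) ^ (x / 3 - 1 / 2) = 3 ^ (x / 3) / Real.sqrt 3 := by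
    rw [Real.rpow_sub (by norm_num), ← Real.sqrt_eq_rpow]
  rw [h3] at h1
  have hs : Real.sqrt 3 ≤ 1.7321 := by
    rw [Real.sqrt_le_left (by norm_num)]
    norm_num
  have hs0 : 0 < Real.sqrt 3 := Real.sqrt_pos.2 (by norm_num)
  rw [div_le_iff₀ hs0] at h1
  have hmu0 : (0 : ℝ) ≤ mu v e := Nat.cast_nonneg _
  have h4 : (3 : ℝ) ^ (x / 3) ≤ mu v e * 1.7321 :=
    h1.trans (mul_le_mul_of_nonneg_left hs hmu0)
  -- linear lower bound for the exponential
  have h5 : 1 + x / 3 ≤ (3 : ℝ) ^ (x / 3) := by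
    have h6 : Real.exp (x / 3) ≤ (3 : ℝ) ^ (x / 3) := by
      have h7 : Real.exp (x / 3) = (Real.exp 1) ^ (x / 3) := by
        rw [← Real.exp_one_rpow]
      rw [h7]
      exact Real.rpow_le_rpow (Real.exp_pos 1).le
        (by linarith [Real.exp_one_lt_d9]) (by positivity)
    linarith [Real.add_one_le_exp (x / 3)]
  have h6 : x + 2 ≤ 3 * (3 : ℝ) ^ (x / 3) := by linarith
  rw [div_le_iff₀ (by norm_num)]
  linarith

end Pool.Agent.Results.MP_88303f_co.AllPairs
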