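import Mathlib
import Pool.Agent.Helper432.MIS.Lower

namespace Pool.Agent.Results.MP_88303f_co.MoonMoserCounts

/-- `S` contains no edge of `G`. -/
def Indep {V : Type*} (G : SimpleGraph V) (S : Finset V) : Prop :=
  ∀ x ∈ S, ∀ y ∈ S, ¬ G.Adj x y

/-- `S` is a maximal independent set of `G`. -/
def IsMIS {V : Type*} (G : SimpleGraph V) (S : Finset V) : Prop :=
  Indep G S ∧ ∀ T : Finset V, S ⊂ T → ¬ Indep G T

/-- The number of maximal independent sets of `G`. -/
noncomputable def misCount {V : Type*} (G : SimpleGraph V) : ℕ :=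
  Nat.card {S : Finset V // IsMIS G S}

/-- `mu v e`: the largest number of maximal independent sets of a graph with `v` vertices and
`e` edges. -/
noncomputable def mu (v e : ℕ) : ℕ :=
  sSup {k | ∃ G : SimpleGraph (Fin v), Nat.card G.edgeSet = e ∧ misCount G = k}

/-- The largest number of maximal independent sets of a graph with `n ≥ 2` vertices. -/
def mon (n : ℕ) : ℕ :=
  if n % 3 = 0 then 3 ^ (n / 3)
  else if n % 3 = 1 then 4 * 3 ^ (n / 3 - 1)
  else 2 * 3 ^ (n / 3)

/-- The number of edges of the complete multipartite graph on `n` vertices with all parts of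
size three, except for one part of size four if `n % 3 = 1` and one part of size two if
`n % 3 = 2`. -/
def mon_edges (n : ℕ) : ℕ :=
  if n % 3 = 0 then n * (n - 3) / 2
  else if n % 3 = 1 then (n - 4) * (n + 1) / 2
  else (n - 1) * (n - 2) / 2

lemma mon_eq {n : ℕ} (hn : 3 ≤ n) : Pool.Agent.Helper432.MISNum.MM n = mon n := by
  rw [mon]
  split_ifs with h1 h2
  · obtain ⟨q, rfl⟩ : ∃ q, n = 3 * q := ⟨n / 3, by omega⟩
    rw [Pool.Agent.Helper432.MISNum.MM_three_mul]
    congr 1
    omega
  · obtain ⟨q, rfl⟩ : ∃ q, n = 3 * q + 4 := ⟨(n - 4) / 3, by omega⟩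
    rw [Pool.Agent.Helper432.MISNum.MM_three_mul_add_four]
    congr 2
    omega
  · obtain ⟨q, rfl⟩ : ∃ q, n = 3 * q + 2 := ⟨(n - 2) / 3, by omega⟩
    rw [Pool.Agent.Helper432.MISNum.MM_three_mul_add_two]
    congr 2
    omega

/-- For all `n ≥ 3`, `n ≠ 8`, and all `v ≥ n`: a graph with `v` vertices and at most
`mon_edges n` non-edges has at most `mon n + v - n` maximal independent sets, and for exactly
`mon_edges n` non-edges this is the exact value of `mu`. -/
theorem result (n v : ℕ) (hn : 3 ≤ n) (h8 : n ≠ 8) (hv : n ≤ v) :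
    mu v (v.choose 2 - mon_edges n) = mon n + (v - n) ∧
    ∀ e : ℕ, v.choose 2 - mon_edges n ≤ e → e ≤ v.choose 2 → mu v e ≤ mon n + (v - n) := by
  rw [← mon_eq hn]
  refine ⟨Pool.Agent.Helper432.MISNum.mu_sharp hn h8 hv, fun e h1 h2 => ?_⟩
  have h3 := Pool.Agent.Helper432.MISNum.upper_sharp (N := v.choose 2 - e) hn h8 hv
    (show v.choose 2 - e ≤ mon_edges n by omega) (Nat.sub_le _ _)
  rw [Nat.sub_sub_self h2] at h3
  exact h3

end Pool.Agent.Results.MP_88303f_co.MoonMoserCounts
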